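import Mathlib

/-!
Definitions for the log-modulus order on measures relative to a uniform algebra.
`S` is a compact space, `A` a subalgebra (with unit) of `C(S, ℂ)`.
-/

open MeasureTheory Set Topology
open scoped ENNReal NNReal

namespace Pool.Agent.LogModulus

variable {S : Type*} [TopologicalSpace S] [CompactSpace S]

/-- The standing hypotheses on the algebra `A`: it is uniformly closed (it contains the constants,
being a unital subalgebra), every continuous multiplicative linear functional on `A` other than `0`
is evaluation at a unique point of `S`, and every `f ∈ A` which is invertible in `A` is `exp g`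
for some `g ∈ A`. -/
structure IsAdmissible (A : Subalgebra ℂ C(S, ℂ)) : Prop where
  isClosed : IsClosed (A : Set C(S, ℂ))
  characters : ∀ φ : A →L[ℂ] ℂ, φ ≠ 0 → (∀ f g : A, φ (f * g) = φ f * φ g) →
    ∃! s : S, ∀ f : A, φ f = (f : C(S, ℂ)) s
  logs : ∀ f ∈ A, ∀ h ∈ A, f * h = 1 → ∃ g ∈ A, ∀ s : S, f s = Complex.exp (g s)

variable [MeasurableSpace S]

/-- Finite measures `μ`, `ν` are equivalent relative to `A` if they have the same integral
against each `f ∈ A`. -/
def Equivalent (A : Subalgebra ℂ C(S, ℂ)) (μ ν : FiniteMeasure S) : Prop :=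
  ∀ f ∈ A, ∫ s, f s ∂(μ : Measure S) = ∫ s, f s ∂(ν : Measure S)

/-- `E A μ` is the set of finite measures that are absolutely continuous with respect to `μ` and
equivalent to `μ` relative to `A`. -/
def E (A : Subalgebra ℂ C(S, ℂ)) (μ : FiniteMeasure S) : Set (FiniteMeasure S) :=
  {ν | (ν : Measure S) ≪ (μ : Measure S) ∧ Equivalent A μ ν}

/-- The integral `∫ log |f| dμ` with values in `[-∞, ∞]`: the integral of the positive part of
`log |f|` minus the integral of its negative part (with `log 0 = -∞`; the first of the two
integrals is finite since `f` is bounded and `μ` is finite). -/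
noncomputable def logIntegral (μ : FiniteMeasure S) (f : C(S, ℂ)) : EReal :=
  ((∫⁻ s, (ENNReal.log ‖f s‖ₑ).toENNReal ∂(μ : Measure S) : ℝ≥0∞) : EReal) -
    ((∫⁻ s, (-ENNReal.log ‖f s‖ₑ).toENNReal ∂(μ : Measure S) : ℝ≥0∞) : EReal)

/-- The log-modulus order: `∫ log |f| dμ ≤ ∫ log |f| dν` for every `f ∈ A`. -/
def LogModLE (A : Subalgebra ℂ C(S, ℂ)) (μ ν : FiniteMeasure S) : Prop :=
  ∀ f ∈ A, logIntegral μ f ≤ logIntegral ν f

/-- `σ` is a greatest element of the set `M` of measures for the log-modulus order. -/
def IsGreatestIn (A : Subalgebra ℂ C(S, ℂ)) (M : Set (FiniteMeasure S)) (σ : FiniteMeasure S) :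
    Prop :=
  σ ∈ M ∧ ∀ ν ∈ M, LogModLE A ν σ

variable [OpensMeasurableSpace S]

/-- `μ` is extremal relative to `A` if it is an extreme point of the closure of `E A μ`, the
closure being taken in the weak topology induced by the continuous functions. -/
def IsExtremal (A : Subalgebra ℂ C(S, ℂ)) (μ : FiniteMeasure S) : Prop :=
  μ ∈ (closure (E A μ)).extremePoints ℝ≥0

end Pool.Agent.LogModulus
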