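import Mathlib
import Pool.Agent.Lib_helper1.LogModulus.Defs

/-!
The algebra of the counterexample: two closed discs joined at their centres.
-/

open MeasureTheory Set Topology
open scoped ENNReal NNReal

namespace Pool.Agent.LogModulus

/-- Two closed unit discs joined at their centres. -/
def Wedge : Set (ℂ × ℂ) := {p | p.1 * p.2 = 0 ∧ ‖p.1‖ ≤ 1 ∧ ‖p.2‖ ≤ 1}

lemma isCompact_wedge : IsCompact Wedge := by
  apply Metric.isCompact_of_isClosed_isBounded
  · have h1 : IsClosed {p : ℂ × ℂ | p.1 * p.2 = 0} := isClosed_eq (by fun_prop) (by fun_prop)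
    have h2 : IsClosed {p : ℂ × ℂ | ‖p.1‖ ≤ 1} := isClosed_le (by fun_prop) (by fun_prop)
    have h3 : IsClosed {p : ℂ × ℂ | ‖p.2‖ ≤ 1} := isClosed_le (by fun_prop) (by fun_prop)
    exact h1.inter (h2.inter h3)
  · rw [isBounded_iff_forall_norm_le]
    refine ⟨1, fun p hp => ?_⟩
    rw [Prod.norm_def]
    exact max_le hp.2.1 hp.2.2

instance : CompactSpace Wedge := isCompact_iff_compactSpace.1 isCompact_wedge

/-- the first coordinate -/
def cZ : C(Wedge, ℂ) := ⟨fun p => p.1.1, by fun_prop⟩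
/-- the second coordinate -/
def cW : C(Wedge, ℂ) := ⟨fun p => p.1.2, by fun_prop⟩

@[simp] lemma cZ_apply (p : Wedge) : cZ p = p.1.1 := rfl
@[simp] lemma cW_apply (p : Wedge) : cW p = p.1.2 := rfl

lemma cZ_mul_cW : cZ * cW = 0 := by
  ext p
  simpa using p.2.1

lemma norm_cZ_le : ‖cZ‖ ≤ 1 := by
  rw [ContinuousMap.norm_le _ zero_le_one]
  exact fun p => p.2.2.1

lemma norm_cW_le : ‖cW‖ ≤ 1 := by
  rw [ContinuousMap.norm_le _ zero_le_one]
  exact fun p => p.2.2.2

/-- The algebra: uniform closure of the polynomials in the two coordinates. -/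
noncomputable def Alg : Subalgebra ℂ C(Wedge, ℂ) :=
  (Algebra.adjoin ℂ {cZ, cW}).topologicalClosure

lemma cZ_mem : cZ ∈ Alg :=
  Subalgebra.le_topologicalClosure _ (Algebra.subset_adjoin (by simp))

lemma cW_mem : cW ∈ Alg :=
  Subalgebra.le_topologicalClosure _ (Algebra.subset_adjoin (by simp))

lemma isClosed_Alg : IsClosed (Alg : Set C(Wedge, ℂ)) :=
  Subalgebra.isClosed_topologicalClosure _

/-- induction principle for `Alg` -/
lemma Alg_induction {P : C(Wedge, ℂ) → Prop} (hZ : P cZ) (hW : P cW)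
    (hc : ∀ c : ℂ, P (algebraMap ℂ _ c)) (hadd : ∀ f ∈ Alg, ∀ g ∈ Alg, P f → P g → P (f + g))
    (hmul : ∀ f ∈ Alg, ∀ g ∈ Alg, P f → P g → P (f * g))
    (hclosed : IsClosed {f | f ∈ Alg ∧ P f}) {f : C(Wedge, ℂ)} (hf : f ∈ Alg) : P f := by
  have h1 : (Algebra.adjoin ℂ {cZ, cW} : Set C(Wedge, ℂ)) ⊆ {f | f ∈ Alg ∧ P f} := by
    intro g hg
    refine ⟨Subalgebra.le_topologicalClosure _ hg, ?_⟩
    induction hg using Algebra.adjoin_induction with
    | mem x hx =>
      rcases hx with rfl | hx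
      · exact hZ
      · rw [mem_singleton_iff] at hx
        subst hx
        exact hW
    | algebraMap r => exact hc r
    | add x y hx hy hx' hy' =>
      exact hadd x (Subalgebra.le_topologicalClosure _ hx) y
        (Subalgebra.le_topologicalClosure _ hy) hx' hy'
    | mul x y hx hy hx' hy' =>
      exact hmul x (Subalgebra.le_topologicalClosure _ hx) y
        (Subalgebra.le_topologicalClosure _ hy) hx' hy'
  have h2 := closure_minimal h1 hclosed
  exact (h2 hf).2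

/-- a point functional with bounded powers -/
lemma norm_le_one_of_mul (φ : Alg →L[ℂ] ℂ) (h1 : φ 1 = 1)
    (hmul : ∀ f g : Alg, φ (f * g) = φ f * φ g) (f : Alg) (hf : ‖f‖ ≤ 1) : ‖φ f‖ ≤ 1 := by
  by_contra hcon
  push Not at hcon
  have hpow : ∀ n : ℕ, φ (f ^ n) = φ f ^ n := by
    intro n
    induction n with
    | zero => simpa using h1
    | succ n ih => rw [pow_succ, hmul, ih, pow_succ]
  have hbd : ∀ n : ℕ, ‖φ f‖ ^ n ≤ ‖φ‖ := by
    intro n
    rw [← norm_pow, ← hpow]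
    calc ‖φ (f ^ n)‖ ≤ ‖φ‖ * ‖f ^ n‖ := φ.le_opNorm _
      _ ≤ ‖φ‖ * 1 := by
        gcongr
        have hn : ‖f ^ n‖ ≤ ‖f‖ ^ n := by
          rcases n with _ | n
          · simp only [pow_zero]
            have : ‖(1 : Alg)‖ = ‖(1 : C(Wedge, ℂ))‖ := rfl
            rw [this]
            exact (ContinuousMap.norm_le _ zero_le_one).2 (fun x => by simp)
          · exact norm_pow_le' _ (Nat.succ_pos n)
        exact hn.trans (pow_le_one₀ (norm_nonneg _) hf)
      _ = ‖φ‖ := mul_one _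
  obtain ⟨n, hn⟩ := pow_unbounded_of_one_lt ‖φ‖ hcon
  exact absurd (hbd n) (not_le.2 hn)

lemma characters_Alg (φ : Alg →L[ℂ] ℂ) (h0 : φ ≠ 0)
    (hmul : ∀ f g : Alg, φ (f * g) = φ f * φ g) :
    ∃! s : Wedge, ∀ f : Alg, φ f = (f : C(Wedge, ℂ)) s := by
  have h1 : φ 1 = 1 := by
    obtain ⟨f, hf⟩ : ∃ f, φ f ≠ 0 := by
      by_contra hcon
      push Not at hcon
      exact h0 (ContinuousLinearMap.ext hcon)
    have := hmul f 1
    rw [mul_one] at this
    exact (mul_right_eq_self₀.1 this.symm).resolve_right hf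
  set Z : Alg := ⟨cZ, cZ_mem⟩ with hZ
  set W : Alg := ⟨cW, cW_mem⟩ with hW
  have hZW : φ Z * φ W = 0 := by
    rw [← hmul]
    have : Z * W = 0 := Subtype.ext cZ_mul_cW
    rw [this, map_zero]
  have hZ1 : ‖φ Z‖ ≤ 1 := norm_le_one_of_mul φ h1 hmul Z norm_cZ_le
  have hW1 : ‖φ W‖ ≤ 1 := norm_le_one_of_mul φ h1 hmul W norm_cW_le
  refine ⟨⟨(φ Z, φ W), hZW, hZ1, hW1⟩, ?_, ?_⟩
  · rintro ⟨f, hf⟩
    have key : ∀ hf : f ∈ Alg, φ ⟨f, hf⟩ = f ⟨(φ Z, φ W), hZW, hZ1, hW1⟩ := by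
      refine Alg_induction (P := fun f => ∀ hf : f ∈ Alg,
        φ ⟨f, hf⟩ = f ⟨(φ Z, φ W), hZW, hZ1, hW1⟩) ?_ ?_ ?_ ?_ ?_ ?_ hf
      · intro _; rfl
      · intro _; rfl
      · intro c hc
        have : (⟨algebraMap ℂ _ c, hc⟩ : Alg) = c • (1 : Alg) := by
          apply Subtype.ext
          simp [Algebra.algebraMap_eq_smul_one]
        rw [this, map_smul, h1]
        simp
      · intro f hf g hg hPf hPg hfg
        have : (⟨f + g, hfg⟩ : Alg) = ⟨f, hf⟩ + ⟨g, hg⟩ := rfl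
        rw [this, map_add, hPf, hPg]
        rfl
      · intro f hf g hg hPf hPg hfg
        have : (⟨f * g, hfg⟩ : Alg) = ⟨f, hf⟩ * ⟨g, hg⟩ := rfl
        rw [this, hmul, hPf, hPg]
        rfl
      · have hset : {f : C(Wedge, ℂ) | f ∈ Alg ∧ ∀ hf : f ∈ Alg,
            φ ⟨f, hf⟩ = f ⟨(φ Z, φ W), hZW, hZ1, hW1⟩} =
            Subtype.val '' {f : Alg | φ f = (f : C(Wedge, ℂ)) ⟨(φ Z, φ W), hZW, hZ1, hW1⟩} := by
          ext f
          constructor
          · rintro ⟨hf, h⟩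
            exact ⟨⟨f, hf⟩, h hf, rfl⟩
          · rintro ⟨g, hg, rfl⟩
            exact ⟨g.2, fun _ => hg⟩
        rw [hset]
        refine (isClosed_Alg.isClosedEmbedding_subtypeVal.isClosedMap) _ ?_
        refine isClosed_eq φ.continuous ?_
        exact (ContinuousEvalConst.continuous_eval_const _).comp continuous_subtype_val
    exact key hf
  · rintro ⟨⟨z, w⟩, hs⟩ h
    apply Subtype.ext
    have e1 := h Z
    have e2 := h W
    simp only [hZ, hW, cZ_apply, cW_apply] at e1 e2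
    exact Prod.ext e1.symm e2.symm

end Pool.Agent.LogModulus
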