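import Mathlib

/-!
Facts about finite measures on the circle.
-/

open MeasureTheory Set Topology AddCircle
open scoped ENNReal NNReal BoundedContinuousFunction

namespace Pool.Agent.LogModulus

/-- the circle -/
abbrev X : Type := AddCircle (1 : ℝ)

/-- normalized Lebesgue measure on the circle -/
noncomputable abbrev mm : Measure X := haarAddCircle

lemma continuous_integral_C (α : Measure X) [IsFiniteMeasure α] :
    Continuous (fun f : C(X, ℂ) => ∫ x, f x ∂α) := by
  have h : (fun f : C(X, ℂ) => ∫ x, f x ∂α) =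
      (fun g : Lp ℂ 1 α => ∫ x, g x ∂α) ∘ (ContinuousMap.toLp (E := ℂ) 1 α ℂ) := by
    ext f
    simp only [Function.comp]
    exact (integral_congr_ae (ContinuousMap.coeFn_toLp (𝕜 := ℂ) α f)).symm
  rw [h]
  exact MeasureTheory.continuous_integral.comp (ContinuousLinearMap.continuous _)

lemma ext_of_fourier (α β : Measure X) [IsFiniteMeasure α] [IsFiniteMeasure β]
    (h : ∀ n : ℤ, ∫ x, fourier n x ∂α = ∫ x, fourier n x ∂β) : α = β := by
  have hint : ∀ (γ : Measure X) [IsFiniteMeasure γ] (f : C(X, ℂ)), Integrable f γ := by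
    intro γ _ f
    exact f.continuous.integrable_of_hasCompactSupport
      (HasCompactSupport.of_compactSpace f)
  have key : ∀ f : C(X, ℂ), ∫ x, f x ∂α = ∫ x, f x ∂β := by
    intro f
    have hf : f ∈ (Submodule.span ℂ (range (@fourier (1 : ℝ)))).topologicalClosure := by
      rw [span_fourier_closure_eq_top]; trivial
    have hcl : IsClosed {f : C(X, ℂ) | ∫ x, f x ∂α = ∫ x, f x ∂β} :=
      isClosed_eq (continuous_integral_C α) (continuous_integral_C β)
    have hsub : (Submodule.span ℂ (range (@fourier (1 : ℝ))) : Set C(X, ℂ)) ⊆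
        {f : C(X, ℂ) | ∫ x, f x ∂α = ∫ x, f x ∂β} := by
      intro g hg
      induction hg using Submodule.span_induction with
      | mem x hx =>
        obtain ⟨n, rfl⟩ := hx
        exact h n
      | zero => simp
      | add x y hx hy hx' hy' =>
        simp only [mem_ofPred_eq, ContinuousMap.add_apply] at *
        rw [integral_add (hint _ _) (hint _ _), integral_add (hint _ _) (hint _ _), hx', hy']
      | smul a x hx hx' =>
        simp only [mem_ofPred_eq, ContinuousMap.smul_apply] at *
        rw [integral_smul, integral_smul, hx']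
    exact closure_minimal hsub hcl hf
  apply ext_of_forall_integral_eq_of_IsFiniteMeasure
  intro f
  let g : C(X, ℂ) := ⟨fun x => ((f x : ℝ) : ℂ), by fun_prop⟩
  have hg := key g
  have e : ∀ (γ : Measure X), ∫ x, g x ∂γ = ((∫ x, f x ∂γ : ℝ) : ℂ) := fun γ => integral_ofReal
  rw [e, e] at hg
  exact_mod_cast hg

lemma integral_fourier_of_ne {n : ℤ} (hn : n ≠ 0) : ∫ x, fourier n x ∂mm = 0 :=
  integral_eq_zero_of_add_right_eq_neg (μ := mm) (fourier_add_half_inv_index hn one_pos)

lemma nontrivial_X : Nontrivial X := by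
  refine ⟨⟨0, ((1 / 2 : ℝ) : X), ?_⟩⟩
  intro h
  have h1 : (fourier 1 (0 : X) : ℂ) = fourier 1 (((1 / 2 : ℝ) : X)) := by rw [← h]
  have h2 := fourier_add_half_inv_index (T := 1) (n := 1) one_ne_zero one_pos 0
  simp only [Int.cast_one, div_one, zero_add] at h2
  rw [h2, fourier_eval_zero] at h1
  norm_num at h1

lemma mm_singleton (x : X) : mm {x} = 0 := by
  have := nontrivial_X
  have : (𝓝[≠] (0 : X)).NeBot := inferInstance
  exact measure_singleton x

end Pool.Agent.LogModulus
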