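import Mathlib
import Pool.Agent.Lib_helper1.LogModulus.Alg

/-!
Every invertible element of the algebra is an exponential.
-/

open MeasureTheory Set Topology
open scoped ENNReal NNReal

namespace Pool.Agent.LogModulus

/-- joint dilation -/
noncomputable def dilJ : C(unitInterval × Wedge, Wedge) where
  toFun q := ⟨(((q.1 : ℝ) : ℂ) * q.2.1.1, ((q.1 : ℝ) : ℂ) * q.2.1.2), by
    obtain ⟨t, ⟨⟨z, w⟩, h0, h1, h2⟩⟩ := q
    have ht : ‖((t : ℝ) : ℂ)‖ ≤ 1 := by
      rw [Complex.norm_real, Real.norm_of_nonneg t.2.1]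
      exact t.2.2
    refine ⟨?_, ?_, ?_⟩
    · simp only at h0 ⊢
      rw [mul_mul_mul_comm, h0, mul_zero]
    · simp only at h1 ⊢
      rw [norm_mul]
      exact mul_le_one₀ ht (norm_nonneg _) h1
    · simp only at h2 ⊢
      rw [norm_mul]
      exact mul_le_one₀ ht (norm_nonneg _) h2⟩
  continuous_toFun := by
    apply Continuous.subtype_mk
    fun_prop

/-- dilation by `t ∈ [0,1]` -/
noncomputable def dil (t : unitInterval) : C(Wedge, Wedge) := dilJ.curry t

lemma comp_dil_mem (t : unitInterval) {f : C(Wedge, ℂ)} (hf : f ∈ Alg) : f.comp (dil t) ∈ Alg := by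
  refine Alg_induction (P := fun f => f.comp (dil t) ∈ Alg) ?_ ?_ ?_ ?_ ?_ ?_ hf
  · have : cZ.comp (dil t) = (((t : ℝ) : ℂ)) • cZ := by ext p; rfl
    rw [this]
    exact Subalgebra.smul_mem _ cZ_mem _
  · have : cW.comp (dil t) = (((t : ℝ) : ℂ)) • cW := by ext p; rfl
    rw [this]
    exact Subalgebra.smul_mem _ cW_mem _
  · intro c
    have : (algebraMap ℂ C(Wedge, ℂ) c).comp (dil t) = algebraMap ℂ C(Wedge, ℂ) c := by
      ext p; rfl
    rw [this]
    exact Subalgebra.algebraMap_mem _ _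
  · intro f _ g _ hPf hPg
    exact Subalgebra.add_mem _ hPf hPg
  · intro f _ g _ hPf hPg
    exact Subalgebra.mul_mem _ hPf hPg
  · exact isClosed_Alg.inter (isClosed_Alg.preimage (ContinuousMap.continuous_precomp (dil t)))

instance : CompleteSpace Alg := isClosed_Alg.completeSpace_coe

/-- the exponentials of elements of the algebra -/
def Exps : Set C(Wedge, ℂ) := {f | ∃ g ∈ Alg, ∀ s : Wedge, f s = Complex.exp (g s)}

lemma mul_mem_Exps {f g : C(Wedge, ℂ)} (hf : f ∈ Exps) (hg : g ∈ Exps) : f * g ∈ Exps := by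
  obtain ⟨a, ha, ha'⟩ := hf
  obtain ⟨b, hb, hb'⟩ := hg
  refine ⟨a + b, Subalgebra.add_mem _ ha hb, fun s => ?_⟩
  rw [ContinuousMap.mul_apply, ContinuousMap.add_apply, Complex.exp_add, ha', hb']

lemma inv_mem_Exps {f g : C(Wedge, ℂ)} (hf : f ∈ Exps) (hfg : f * g = 1) : g ∈ Exps := by
  obtain ⟨a, ha, ha'⟩ := hf
  refine ⟨-a, Subalgebra.neg_mem _ ha, fun s => ?_⟩
  have h1 : f s * g s = 1 := by
    rw [← ContinuousMap.mul_apply, hfg]; rfl
  rw [ContinuousMap.neg_apply, Complex.exp_neg, ← ha']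
  have h2 : f s ≠ 0 := left_ne_zero_of_mul_eq_one h1
  field_simp
  rw [mul_comm]; exact h1

lemma exists_ball_Exps : ∃ ε > 0, ∀ f ∈ Alg, ‖f - 1‖ < ε → f ∈ Exps := by
  have hder : HasStrictFDerivAt (NormedSpace.exp : Alg → Alg)
      ((ContinuousLinearEquiv.refl ℂ Alg : Alg ≃L[ℂ] Alg) : Alg →L[ℂ] Alg) 0 := by
    have := hasStrictFDerivAt_exp_zero (𝕂 := ℂ) (𝔸 := Alg)
    exact this
  have hmap := hder.map_nhds_eq_of_equiv
  rw [NormedSpace.exp_zero] at hmap
  have hrange : range (NormedSpace.exp : Alg → Alg) ∈ 𝓝 (1 : Alg) := by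
    rw [← hmap]
    exact Filter.range_mem_map
  obtain ⟨ε, hε, hball⟩ := Metric.mem_nhds_iff.1 hrange
  refine ⟨ε, hε, fun f hf hlt => ?_⟩
  have hmem : (⟨f, hf⟩ : Alg) ∈ Metric.ball (1 : Alg) ε := by
    rw [mem_ball_iff_norm]
    exact hlt
  obtain ⟨g, hg⟩ := hball hmem
  refine ⟨g, g.2, fun s => ?_⟩
  let _ : NormedAlgebra ℚ Alg := NormedAlgebra.restrictScalars ℚ ℂ Alg
  let ev : Alg →+* ℂ :=
    { toFun := fun f => (f : C(Wedge, ℂ)) s
      map_one' := rfl
      map_mul' := fun _ _ => rfl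
      map_zero' := rfl
      map_add' := fun _ _ => rfl }
  have hev : Continuous ev :=
    (ContinuousEvalConst.continuous_eval_const s).comp continuous_subtype_val
  have := NormedSpace.map_exp ev hev g
  rw [hg] at this
  rw [← Complex.exp_eq_exp_ℂ] at this
  exact this

lemma logs_Alg : ∀ f ∈ Alg, ∀ h ∈ Alg, f * h = 1 →
    ∃ g ∈ Alg, ∀ s : Wedge, f s = Complex.exp (g s) := by
  intro f hf h hh hfh
  obtain ⟨ε, hε, hball⟩ := exists_ball_Exps
  let F : C(unitInterval, C(Wedge, ℂ)) := (f.comp dilJ).curry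
  let H : C(unitInterval, C(Wedge, ℂ)) := (h.comp dilJ).curry
  have hF : ∀ t, F t ∈ Alg := fun t => comp_dil_mem t hf
  have hH : ∀ t, H t ∈ Alg := fun t => comp_dil_mem t hh
  have hFH : ∀ t, F t * H t = 1 := by
    intro t
    ext s
    have : (f * h) (dilJ (t, s)) = 1 := by rw [hfh]; rfl
    exact this
  have hnear : ∀ t0, ∀ᶠ t in 𝓝 t0, ‖F t * H t0 - 1‖ < ε := by
    intro t0
    have hc : Continuous (fun t => ‖F t * H t0 - 1‖) := by fun_prop
    have : ‖F t0 * H t0 - 1‖ < ε := by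
      rw [hFH, sub_self, norm_zero]; exact hε
    exact hc.continuousAt.eventually_lt continuousAt_const this
  have hiff : ∀ t0, ∀ᶠ t in 𝓝 t0, (F t ∈ Exps ↔ F t0 ∈ Exps) := by
    intro t0
    filter_upwards [hnear t0] with t ht
    have hE : F t * H t0 ∈ Exps := hball _ (Subalgebra.mul_mem _ (hF t) (hH t0)) ht
    constructor
    · intro hFt
      -- H t0 = H t * (F t * H t0)
      have h1 : H t ∈ Exps := inv_mem_Exps hFt (hFH t)
      have h2 : H t * (F t * H t0) ∈ Exps := mul_mem_Exps h1 hE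
      have h3 : H t * (F t * H t0) = H t0 := by
        rw [← mul_assoc, mul_comm (H t), hFH, one_mul]
      rw [h3] at h2
      exact inv_mem_Exps h2 (by rw [mul_comm]; exact hFH t0)
    · intro hFt0
      have h2 : (F t * H t0) * F t0 ∈ Exps := mul_mem_Exps hE hFt0
      have h3 : (F t * H t0) * F t0 = F t := by
        rw [mul_assoc, mul_comm (H t0), hFH, mul_one]
      rwa [h3] at h2
  have hclopen : IsClopen {t | F t ∈ Exps} := by
    constructor
    · rw [← isOpen_compl_iff, isOpen_iff_mem_nhds]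
      intro t0 ht0
      filter_upwards [hiff t0] with t ht
      exact fun hcon => ht0 (ht.1 hcon)
    · rw [isOpen_iff_mem_nhds]
      intro t0 ht0
      filter_upwards [hiff t0] with t ht
      exact ht.2 ht0
  have h0 : F 0 ∈ Exps := by
    let o : Wedge := ⟨(0, 0), by simp [Wedge]⟩
    have hval : ∀ s, F 0 s = f o := by
      intro s
      have : dilJ (0, s) = o := by
        apply Subtype.ext
        simp [dilJ, o]
      show f (dilJ (0, s)) = f o
      rw [this]
    have hne : f o ≠ 0 := by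
      have : (f * h) o = 1 := by rw [hfh]; rfl
      exact left_ne_zero_of_mul_eq_one this
    refine ⟨algebraMap ℂ _ (Complex.log (f o)), Subalgebra.algebraMap_mem _ _, fun s => ?_⟩
    rw [hval]
    exact (Complex.exp_log hne).symm
  have huniv := hclopen.eq_univ ⟨0, h0⟩
  have h1 : F 1 ∈ Exps := by
    have : (1 : unitInterval) ∈ {t | F t ∈ Exps} := by rw [huniv]; trivial
    exact this
  have hF1 : F 1 = f := by
    ext s
    have : dilJ (1, s) = s := by
      apply Subtype.ext
      simp [dilJ]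
    show f (dilJ (1, s)) = f s
    rw [this]
  rw [hF1] at h1
  exact h1

theorem isAdmissible_Alg : IsAdmissible Alg where
  isClosed := isClosed_Alg
  characters := characters_Alg
  logs := logs_Alg

end Pool.Agent.LogModulus
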