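import Mathlib
import Pool.Agent.Lib_helper1.LogModulus.Circle

/-!
The Poisson kernel of the point `1/2` on the circle.
-/

open MeasureTheory Set Topology AddCircle
open scoped ENNReal NNReal BoundedContinuousFunction

namespace Pool.Agent.LogModulus

lemma norm_fourier (n : ℤ) (x : X) : ‖(fourier n x : ℂ)‖ = 1 := by
  rw [fourier_apply, Circle.norm_coe]

lemma two_sub_ne {z : ℂ} (hz : ‖z‖ = 1) : (2 : ℂ) - z ≠ 0 := by
  intro h
  rw [sub_eq_zero] at h
  rw [← h] at hz
  norm_num at hz

lemma one_le_norm_two_sub {z : ℂ} (hz : ‖z‖ = 1) : 1 ≤ ‖(2 : ℂ) - z‖ := by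
  have := norm_sub_norm_le (2 : ℂ) z
  rw [hz] at this
  norm_num at this
  linarith

lemma norm_two_sub_le {z : ℂ} (hz : ‖z‖ = 1) : ‖(2 : ℂ) - z‖ ≤ 3 := by
  have := norm_sub_le (2 : ℂ) z
  rw [hz] at this
  norm_num at this
  linarith

/-- the Poisson kernel at `1/2` -/
noncomputable def pois (x : X) : ℝ := 3 / ‖(2 : ℂ) - fourier 1 x‖ ^ 2

lemma continuous_pois : Continuous pois := by
  unfold pois
  apply Continuous.div continuous_const (by fun_prop)
  intro x
  have := one_le_norm_two_sub (norm_fourier 1 x)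
  positivity

lemma pois_ge (x : X) : 1 / 3 ≤ pois x := by
  unfold pois
  have h1 := one_le_norm_two_sub (norm_fourier 1 x)
  have h2 := norm_two_sub_le (norm_fourier 1 x)
  rw [div_le_div_iff₀ (by norm_num) (by positivity)]
  nlinarith

lemma pois_le (x : X) : pois x ≤ 3 := by
  unfold pois
  have h1 := one_le_norm_two_sub (norm_fourier 1 x)
  rw [div_le_iff₀ (by positivity)]
  nlinarith

lemma pois_nonneg (x : X) : 0 ≤ pois x := le_trans (by norm_num) (pois_ge x)

lemma pois_eq_iff {x : X} : pois x = 1 / 3 ↔ (fourier 1 x : ℂ) = -1 := by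
  constructor
  · intro h
    unfold pois at h
    have h1 := one_le_norm_two_sub (norm_fourier 1 x)
    have h2 : ‖(2 : ℂ) - fourier 1 x‖ ^ 2 = 9 := by
      have : ‖(2 : ℂ) - fourier 1 x‖ ^ 2 ≠ 0 := by positivity
      field_simp at h
      linarith
    rw [← Complex.normSq_eq_norm_sq, Complex.normSq_apply] at h2
    have h3 : Complex.normSq (fourier 1 x : ℂ) = 1 := by
      rw [Complex.normSq_eq_norm_sq, norm_fourier]; norm_num
    rw [Complex.normSq_apply] at h3
    simp only [Complex.sub_re, Complex.sub_im, Complex.re_ofNat, Complex.im_ofNat] at h2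
    have hre : (fourier 1 x : ℂ).re = -1 := by nlinarith
    have him : (fourier 1 x : ℂ).im = 0 := by
      have : (fourier 1 x : ℂ).im * (fourier 1 x : ℂ).im = 0 := by
        rw [hre] at h3; linarith
      exact mul_self_eq_zero.1 this
    apply Complex.ext
    · rw [hre]; simp
    · rw [him]; simp
  · intro h
    unfold pois
    rw [h]
    norm_num

/-- the point of the circle where the Poisson kernel is smallest -/
noncomputable def xmin : X := ((1 / 2 : ℝ) : X)

lemma fourier_xmin : (fourier 1 xmin : ℂ) = -1 := by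
  have h2 := fourier_add_half_inv_index (T := 1) (n := 1) one_ne_zero one_pos 0
  simp only [Int.cast_one, div_one, zero_add] at h2
  unfold xmin
  rw [h2, fourier_eval_zero]

lemma pois_xmin : pois xmin = 1 / 3 := pois_eq_iff.2 fourier_xmin

lemma pois_ne {x : X} (hx : x ≠ xmin) : pois x ≠ 1 / 3 := by
  intro h
  rw [pois_eq_iff] at h
  apply hx
  apply injective_toCircle (T := 1) one_ne_zero
  apply Subtype.ext
  rw [← fourier_one, ← fourier_one, h, fourier_xmin]

lemma integrable_X (f : X → ℂ) (hf : Continuous f) : Integrable f mm :=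
  hf.integrable_of_hasCompactSupport (HasCompactSupport.of_compactSpace f)

/-- integrals of `e^n / (2 - conj e)` -/
noncomputable def JJ (n : ℤ) : ℂ := ∫ x, (fourier n x : ℂ) / (2 - fourier (-1) x) ∂mm

lemma continuous_J (n : ℤ) : Continuous (fun x : X => (fourier n x : ℂ) / (2 - fourier (-1) x)) := by
  apply Continuous.div (by fun_prop) (by fun_prop)
  intro x
  exact two_sub_ne (norm_fourier _ x)

lemma JJ_bdd (n : ℤ) : ‖JJ n‖ ≤ 1 := by
  unfold JJ
  have h := norm_integral_le_of_norm_le_const (μ := mm) (C := 1)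
    (f := fun x : X => (fourier n x : ℂ) / (2 - fourier (-1) x))
    (Filter.Eventually.of_forall (fun x => by
      rw [norm_div, norm_fourier]
      have h1 := one_le_norm_two_sub (norm_fourier (-1) x)
      rw [div_le_one (by linarith)]
      exact h1))
  simpa using h

lemma JJ_rec (n : ℤ) : 2 * JJ n - JJ (n - 1) = ∫ x, (fourier n x : ℂ) ∂mm := by
  unfold JJ
  rw [← integral_const_mul, ← integral_sub]
  · congr 1
    ext x
    have h0 := two_sub_ne (norm_fourier (-1) x)
    have h1 : (fourier (n - 1) x : ℂ) = fourier n x * fourier (-1) x := by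
      rw [← fourier_add]
      rfl
    rw [h1]
    field_simp
  · exact (integrable_X _ (continuous_J n)).const_mul 2
  · exact integrable_X _ (continuous_J (n - 1))

lemma JJ_rec' {n : ℤ} (hn : n ≠ 0) : JJ n = JJ (n - 1) / 2 := by
  have := JJ_rec n
  rw [integral_fourier_of_ne hn] at this
  linear_combination this / 2

lemma eq_zero_of_bdd_pow {a : ℂ} (h : ∀ k : ℕ, ‖a‖ ≤ 2 / 2 ^ k) : a = 0 := by
  have : Filter.Tendsto (fun k : ℕ => (2 : ℝ) / 2 ^ k) Filter.atTop (𝓝 0) := by
    have h1 := (tendsto_pow_atTop_nhds_zero_of_lt_one (r := (1 / 2 : ℝ)) (by norm_num)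
      (by norm_num)).const_mul 2
    rw [mul_zero] at h1
    refine h1.congr (fun k => ?_)
    rw [one_div, inv_pow]
    rfl
  have h2 := ge_of_tendsto' this h
  exact norm_le_zero_iff.1 h2

lemma JJ_neg_one : JJ (-1) = 0 := by
  have h : ∀ k : ℕ, JJ (-1) = JJ (-1 - k) / 2 ^ k := by
    intro k
    induction k with
    | zero => simp
    | succ k ih =>
      rw [ih, JJ_rec' (n := -1 - k) (by omega), pow_succ]
      have : (-1 - (k : ℤ) - 1) = -1 - ((k + 1 : ℕ) : ℤ) := by push_cast; ring
      rw [this]
      field_simp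
  apply eq_zero_of_bdd_pow
  intro k
  rw [h k, norm_div, norm_pow]
  have : ‖(2 : ℂ)‖ = 2 := by norm_num
  rw [this]
  gcongr
  exact (JJ_bdd _).trans (by norm_num)

lemma JJ_nat (n : ℕ) : JJ n = (1 / 2) ^ (n + 1) := by
  induction n with
  | zero =>
    have := JJ_rec 0
    rw [zero_sub, JJ_neg_one] at this
    simp only [fourier_zero, integral_const, probReal_univ, Complex.real_smul, Complex.ofReal_one,
      mul_one, sub_zero] at this
    rw [Nat.cast_zero]
    linear_combination this / 2
  | succ n ih =>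
    have h1 : JJ ((n + 1 : ℕ) : ℤ) = JJ (((n + 1 : ℕ) : ℤ) - 1) / 2 := JJ_rec' (by positivity)
    rw [h1]
    have : (((n + 1 : ℕ) : ℤ) - 1) = n := by push_cast; ring
    rw [this, ih]
    ring

/-- the Poisson integral of `e^n` -/
noncomputable def II (n : ℤ) : ℂ := ∫ x, (fourier n x : ℂ) * (pois x : ℂ) ∂mm

lemma II_bdd (n : ℤ) : ‖II n‖ ≤ 3 := by
  unfold II
  have h := norm_integral_le_of_norm_le_const (μ := mm) (C := 3)
    (f := fun x : X => (fourier n x : ℂ) * (pois x : ℂ))
    (Filter.Eventually.of_forall (fun x => by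
      rw [norm_mul, norm_fourier, one_mul, Complex.norm_real, Real.norm_of_nonneg (pois_nonneg x)]
      exact pois_le x))
  simpa using h

lemma continuous_I (n : ℤ) : Continuous (fun x : X => (fourier n x : ℂ) * (pois x : ℂ)) := by
  have := continuous_pois
  fun_prop

lemma pois_eq (x : X) : (pois x : ℂ) = 3 / ((2 - fourier 1 x) * (2 - fourier (-1) x)) := by
  unfold pois
  rw [← Complex.normSq_eq_norm_sq, Complex.ofReal_div, ← Complex.mul_conj, fourier_neg, map_sub]
  have h2 : (starRingEnd ℂ) 2 = 2 := Complex.conj_ofNat 2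
  rw [h2]
  norm_num

lemma II_rec (n : ℤ) : 2 * II n - II (n + 1) = 3 * JJ n := by
  unfold II JJ
  rw [← integral_const_mul, ← integral_sub, ← integral_const_mul]
  · congr 1
    ext x
    have h0 := two_sub_ne (norm_fourier (-1) x)
    have h0' := two_sub_ne (norm_fourier 1 x)
    have h1 : (fourier (n + 1) x : ℂ) = fourier n x * fourier 1 x := fourier_add
    rw [h1, pois_eq]
    field_simp
  · exact (integrable_X _ (continuous_I n)).const_mul 2
  · exact integrable_X _ (continuous_I (n + 1))

lemma II_nat (n : ℕ) : II n = (1 / 2) ^ n := by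
  have hD : ∀ n : ℕ, II n - (1 / 2) ^ n = (II ((n + 1 : ℕ) : ℤ) - (1 / 2) ^ (n + 1)) / 2 := by
    intro n
    have h1 := II_rec n
    rw [JJ_nat] at h1
    push_cast
    have : ((1 : ℂ) / 2) ^ (n + 1) = (1 / 2) ^ n / 2 := by ring
    rw [this] at h1 ⊢
    linear_combination h1 / 2
  have hk : ∀ k : ℕ, II n - (1 / 2) ^ n = (II ((n + k : ℕ) : ℤ) - (1 / 2) ^ (n + k)) / 2 ^ k := by
    intro k
    induction k with
    | zero => simp
    | succ k ih =>
      rw [ih, hD (n + k)]
      rw [← add_assoc n k 1, pow_succ (2 : ℂ) k]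
      field_simp
  have hbd : ∀ m : ℕ, ‖II m - (1 / 2) ^ m‖ ≤ 4 := by
    intro m
    refine (norm_sub_le _ _).trans ?_
    have h1 := II_bdd m
    have h2 : ‖((1 : ℂ) / 2) ^ m‖ ≤ 1 := by
      rw [norm_pow]
      apply pow_le_one₀ (norm_nonneg _)
      norm_num
    linarith
  have hz : (II n - (1 / 2) ^ n) / 2 = 0 := by
    apply eq_zero_of_bdd_pow
    intro k
    rw [hk k, norm_div, norm_div, norm_pow]
    have : ‖(2 : ℂ)‖ = 2 := by norm_num
    rw [this, div_right_comm]
    gcongr
    have := hbd (n + k)
    linarith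
  have := div_eq_zero_iff.1 hz
  rcases this with h | h
  · exact sub_eq_zero.1 h
  · norm_num at h

/-- the density: Poisson kernel minus its minimum `1/3` -/
noncomputable def dens (x : X) : ℝ≥0∞ := ENNReal.ofReal (pois x - 1 / 3)

lemma continuous_dens : Continuous dens := by
  unfold dens
  exact ENNReal.continuous_ofReal.comp (continuous_pois.sub continuous_const)

lemma dens_le (x : X) : dens x ≤ 3 := by
  unfold dens
  apply ENNReal.ofReal_le_of_le_toReal
  have := pois_le x
  norm_num
  linarith

lemma dens_xmin : dens xmin = 0 := by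
  simp [dens, pois_xmin]

lemma dens_ne_zero {x : X} (hx : x ≠ xmin) : dens x ≠ 0 := by
  unfold dens
  rw [Ne, ENNReal.ofReal_eq_zero, not_le]
  have h1 := pois_ge x
  have h2 := pois_ne hx
  rcases lt_or_eq_of_le h1 with h | h
  · linarith
  · exact absurd h.symm h2

/-- the measure with density `pois - 1/3` -/
noncomputable def md : Measure X := mm.withDensity dens

/-- the Poisson measure of the point `1/2` -/
noncomputable def mp : Measure X := mm.withDensity (fun x => ENNReal.ofReal (pois x))

instance : IsFiniteMeasure md := by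
  unfold md
  apply isFiniteMeasure_withDensity
  refine ne_of_lt ((lintegral_mono dens_le).trans_lt ?_)
  simp

lemma mm_ac_md : mm ≪ md := by
  unfold md
  apply withDensity_absolutelyContinuous' continuous_dens.measurable.aemeasurable
  have : ∀ᵐ x ∂mm, x ≠ xmin := by
    rw [ae_iff]
    simpa using mm_singleton xmin
  filter_upwards [this] with x hx using dens_ne_zero hx

/-- no positive multiple of the Lebesgue measure is below `md` -/
lemma not_le_md {c : ℝ≥0∞} (hc : 0 < c) (ν : Measure X) : ν + c • mm ≠ md := by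
  intro h
  let U : Set X := {x | dens x < c}
  have hU : IsOpen U := isOpen_lt continuous_dens continuous_const
  have hne : U.Nonempty := ⟨xmin, by simp only [U, mem_ofPred_eq, dens_xmin]; exact hc⟩
  have hpos : 0 < mm U := hU.measure_pos _ hne
  have hfin : mm U ≠ ⊤ := measure_ne_top _ _
  have h1 : c * mm U ≤ md U := by
    rw [← h]
    simp
  have h2 : md U < c * mm U := by
    unfold md
    rw [withDensity_apply _ hU.measurableSet, ← setLIntegral_const]
    apply setLIntegral_strict_mono hU.measurableSet hpos.ne' measurable_const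
    · refine ne_of_lt ((lintegral_mono dens_le).trans_lt ?_)
      simp only [lintegral_const, Measure.restrict_apply MeasurableSet.univ, univ_inter]
      exact ENNReal.mul_lt_top (by simp) (lt_top_iff_ne_top.2 hfin)
    · exact Filter.Eventually.of_forall (fun x hx => hx)
  exact absurd h1 (not_le.2 h2)

lemma md_add : md + (1 / 3 : ℝ≥0) • mm = mp := by
  unfold md mp
  have h : (fun x => ENNReal.ofReal (pois x)) = dens + (fun _ => ((1 / 3 : ℝ≥0) : ℝ≥0∞)) := by
    ext x
    simp only [Pi.add_apply, dens]
    have e : ((1 / 3 : ℝ≥0) : ℝ≥0∞) = ENNReal.ofReal (1 / 3) := by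
      rw [ENNReal.ofReal, Real.toNNReal_div (by norm_num)]
      simp
    rw [e, ← ENNReal.ofReal_add (by linarith [pois_ge x]) (by norm_num)]
    congr 1
    ring
  rw [h, withDensity_add_left continuous_dens.measurable, withDensity_const]
  rfl

lemma integral_mp (f : X → ℂ) : ∫ x, f x ∂mp = ∫ x, f x * (pois x : ℂ) ∂mm := by
  unfold mp
  have hm : Measurable (fun x => ENNReal.ofReal (pois x)) :=
    (ENNReal.continuous_ofReal.comp continuous_pois).measurable
  rw [integral_withDensity_eq_integral_toReal_smul hm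
    (Filter.Eventually.of_forall (fun x => ENNReal.ofReal_lt_top))]
  congr 1
  ext x
  rw [ENNReal.toReal_ofReal (pois_nonneg x), Complex.real_smul, mul_comm]

lemma integral_mp_fourier (n : ℕ) : ∫ x, (fourier n x : ℂ) ∂mp = (1 / 2) ^ n := by
  rw [integral_mp]
  exact II_nat n

end Pool.Agent.LogModulus
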