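import Mathlib
import Pool.Agent.Lib_helper1.LogModulus.Logs
import Pool.Agent.Lib_helper1.LogModulus.Poisson

/-!
The example: the measures and the proof.
-/

open MeasureTheory Set Topology AddCircle
open scoped ENNReal NNReal BoundedContinuousFunction

namespace Pool.Agent.LogModulus

lemma norm_fourier_one (x : X) : ‖(fourier 1 x : ℂ)‖ = 1 := by
  rw [fourier_one, Circle.norm_coe]

lemma fourier_one_injective : Function.Injective (fun x : X => (fourier 1 x : ℂ)) := by
  intro x y h
  simp only [fourier_one] at h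
  exact injective_toCircle one_ne_zero (Subtype.ext h)

lemma fourier_one_pow (n : ℕ) (x : X) : (fourier 1 x : ℂ) ^ n = fourier n x := by
  induction n with
  | zero => simp
  | succ n ih =>
    rw [pow_succ, ih, ← fourier_add]
    norm_num

/-- the first circle -/
noncomputable def e1 (x : X) : Wedge :=
  ⟨(fourier 1 x, 0), by simp [Wedge]⟩

/-- the second circle -/
noncomputable def e2 (x : X) : Wedge :=
  ⟨(0, fourier 1 x), by simp [Wedge]⟩

lemma continuous_e1 : Continuous e1 := by
  unfold e1
  apply Continuous.subtype_mk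
  fun_prop

lemma continuous_e2 : Continuous e2 := by
  unfold e2
  apply Continuous.subtype_mk
  fun_prop

lemma injective_e1 : Function.Injective e1 := by
  intro x y h
  have h1 : (e1 x).1.1 = (e1 y).1.1 := by rw [h]
  exact fourier_one_injective h1

lemma injective_e2 : Function.Injective e2 := by
  intro x y h
  have h1 : (e2 x).1.2 = (e2 y).1.2 := by rw [h]
  exact fourier_one_injective h1

lemma emb_e1 : MeasurableEmbedding e1 :=
  (continuous_e1.isClosedEmbedding injective_e1).measurableEmbedding

lemma emb_e2 : MeasurableEmbedding e2 :=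
  (continuous_e2.isClosedEmbedding injective_e2).measurableEmbedding

lemma range_disj : Disjoint (range e1) (range e2) := by
  rw [Set.disjoint_left]
  rintro _ ⟨x, rfl⟩ ⟨y, h⟩
  have h1 : (e2 y).1.1 = (e1 x).1.1 := by rw [h]
  simp only [e2, e1] at h1
  have h2 := norm_fourier_one x
  rw [← h1] at h2
  simp at h2

lemma Z_e1 (x : X) : cZ (e1 x) = fourier 1 x := rfl
lemma W_e1 (x : X) : cW (e1 x) = 0 := rfl
lemma Z_e2 (x : X) : cZ (e2 x) = 0 := rfl
lemma W_e2 (x : X) : cW (e2 x) = fourier 1 x := rfl

/-- the common centre -/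
def org : Wedge := ⟨(0, 0), by simp [Wedge]⟩

lemma integrable_C {Y : Type*} [TopologicalSpace Y] [CompactSpace Y] [MeasurableSpace Y]
    [BorelSpace Y] (γ : Measure Y) [IsFiniteMeasure γ] (f : C(Y, ℂ)) : Integrable f γ :=
  f.continuous.integrable_of_hasCompactSupport (HasCompactSupport.of_compactSpace f)

/-- the point `1/2` of the first disc -/
noncomputable def pt : Wedge := ⟨(1 / 2, 0), by
  refine ⟨?_, ?_, ?_⟩
  · simp
  · simp only [norm_div, norm_one, Complex.norm_ofNat]
    norm_num
  · simp⟩

instance : IsFiniteMeasure mp := by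
  rw [← md_add]
  infer_instance

lemma mean_pt (f : C(Wedge, ℂ)) (hf : f ∈ Alg) : ∫ x, f (e1 x) ∂mp = f pt := by
  let E1 : C(X, Wedge) := ⟨e1, continuous_e1⟩
  have hc1 : Continuous (fun f : C(Wedge, ℂ) => ∫ x, f (e1 x) ∂mp) :=
    (continuous_integral_C mp).comp (ContinuousMap.continuous_precomp E1)
  have hc3 : Continuous (fun f : C(Wedge, ℂ) => f pt) :=
    ContinuousEvalConst.continuous_eval_const pt
  have hcl : IsClosed {f : C(Wedge, ℂ) | ∫ x, f (e1 x) ∂mp = f pt} := isClosed_eq hc1 hc3
  have hsub : (Algebra.adjoin ℂ {cZ, cW} : Set C(Wedge, ℂ)) ⊆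
      {f : C(Wedge, ℂ) | ∫ x, f (e1 x) ∂mp = f pt} := by
    intro g hg
    have hg' : g ∈ Submodule.span ℂ (Submonoid.closure {cZ, cW} : Set C(Wedge, ℂ)) := by
      rw [← Algebra.adjoin_eq_span]; exact hg
    clear hg
    induction hg' using Submodule.span_induction with
    | mem x hx =>
      rw [SetLike.mem_coe, Submonoid.mem_closure_pair] at hx
      obtain ⟨m, n, rfl⟩ := hx
      simp only [mem_ofPred_eq, ContinuousMap.mul_apply, ContinuousMap.pow_apply, Z_e1, W_e1,
        fourier_one_pow]
      rcases Nat.eq_zero_or_pos n with hn | hn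
      · subst hn
        simp only [pow_zero, mul_one]
        rw [integral_mp_fourier]
        simp [pt]
      · simp [pt, hn.ne']
    | zero => simp
    | add x y hx hy hx' hy' =>
      simp only [mem_ofPred_eq, ContinuousMap.add_apply] at hx' hy' ⊢
      have a1 : Integrable (fun p => x (e1 p)) mp := integrable_C mp (x.comp E1)
      have a2 : Integrable (fun p => y (e1 p)) mp := integrable_C mp (y.comp E1)
      rw [integral_add a1 a2, hx', hy']
    | smul a x hx hx' =>
      simp only [mem_ofPred_eq, ContinuousMap.smul_apply] at hx' ⊢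
      rw [integral_smul, hx']
  exact closure_minimal hsub hcl hf

lemma mean (f : C(Wedge, ℂ)) (hf : f ∈ Alg) :
    ∫ x, f (e1 x) ∂mm = f org ∧ ∫ x, f (e2 x) ∂mm = f org := by
  let E1 : C(X, Wedge) := ⟨e1, continuous_e1⟩
  let E2 : C(X, Wedge) := ⟨e2, continuous_e2⟩
  have hc1 : Continuous (fun f : C(Wedge, ℂ) => ∫ x, f (e1 x) ∂mm) :=
    (continuous_integral_C mm).comp (ContinuousMap.continuous_precomp E1)
  have hc2 : Continuous (fun f : C(Wedge, ℂ) => ∫ x, f (e2 x) ∂mm) :=
    (continuous_integral_C mm).comp (ContinuousMap.continuous_precomp E2)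
  have hc3 : Continuous (fun f : C(Wedge, ℂ) => f org) :=
    ContinuousEvalConst.continuous_eval_const org
  have hcl : IsClosed {f : C(Wedge, ℂ) | ∫ x, f (e1 x) ∂mm = f org ∧
      ∫ x, f (e2 x) ∂mm = f org} := (isClosed_eq hc1 hc3).inter (isClosed_eq hc2 hc3)
  have hsub : (Algebra.adjoin ℂ {cZ, cW} : Set C(Wedge, ℂ)) ⊆
      {f : C(Wedge, ℂ) | ∫ x, f (e1 x) ∂mm = f org ∧ ∫ x, f (e2 x) ∂mm = f org} := by
    intro g hg
    have hg' : g ∈ Submodule.span ℂ (Submonoid.closure {cZ, cW} : Set C(Wedge, ℂ)) := by
      rw [← Algebra.adjoin_eq_span]; exact hg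
    induction hg' using Submodule.span_induction with
    | mem x hx =>
      rw [SetLike.mem_coe, Submonoid.mem_closure_pair] at hx
      obtain ⟨m, n, rfl⟩ := hx
      simp only [mem_ofPred_eq, ContinuousMap.mul_apply, ContinuousMap.pow_apply, Z_e1, W_e1,
        Z_e2, W_e2, fourier_one_pow]
      rcases Nat.eq_zero_or_pos n with hn | hn
      · rcases Nat.eq_zero_or_pos m with hm | hm
        · subst hn hm
          simp
        · subst hn
          have : (m : ℤ) ≠ 0 := by exact_mod_cast hm.ne'
          constructor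
          · simp only [pow_zero, mul_one]
            rw [integral_fourier_of_ne this]
            simp [org, hm.ne']
          · simp [org, hm.ne']
      · have hn' : (n : ℤ) ≠ 0 := by exact_mod_cast hn.ne'
        rcases Nat.eq_zero_or_pos m with hm | hm
        · subst hm
          constructor
          · simp [org, hn.ne']
          · simp only [pow_zero, one_mul]
            rw [integral_fourier_of_ne hn']
            simp [org, hn.ne']
        · constructor
          · simp [org, hn.ne']
          · simp [org, hm.ne']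
    | zero => simp
    | add x y hx hy hx' hy' =>
      have hx'' := hx' (by
        show x ∈ Subalgebra.toSubmodule (Algebra.adjoin ℂ {cZ, cW})
        rw [Algebra.adjoin_eq_span]; exact hx)
      have hy'' := hy' (by
        show y ∈ Subalgebra.toSubmodule (Algebra.adjoin ℂ {cZ, cW})
        rw [Algebra.adjoin_eq_span]; exact hy)
      simp only [mem_ofPred_eq, ContinuousMap.add_apply] at hx'' hy'' ⊢
      have a1 : Integrable (fun p => x (e1 p)) mm := integrable_C mm (x.comp E1)
      have a2 : Integrable (fun p => y (e1 p)) mm := integrable_C mm (y.comp E1)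
      have a3 : Integrable (fun p => x (e2 p)) mm := integrable_C mm (x.comp E2)
      have a4 : Integrable (fun p => y (e2 p)) mm := integrable_C mm (y.comp E2)
      rw [integral_add a1 a2, integral_add a3 a4]
      exact ⟨by rw [hx''.1, hy''.1], by rw [hx''.2, hy''.2]⟩
    | smul a x hx hx' =>
      have hx'' := hx' (by
        show x ∈ Subalgebra.toSubmodule (Algebra.adjoin ℂ {cZ, cW})
        rw [Algebra.adjoin_eq_span]; exact hx)
      simp only [mem_ofPred_eq, ContinuousMap.smul_apply] at hx'' ⊢
      rw [integral_smul, integral_smul, hx''.1, hx''.2]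
      exact ⟨rfl, rfl⟩
  exact closure_minimal hsub hcl hf

/-- `md` as a finite measure -/
noncomputable def MD : FiniteMeasure X := ⟨md, inferInstance⟩
/-- `mm` as a finite measure -/
noncomputable def MM : FiniteMeasure X := ⟨mm, inferInstance⟩

/-- the segment of measures -/
noncomputable def seg (t : ℝ≥0) : FiniteMeasure Wedge :=
  (MD + t • MM).map e1 + ((1 / 3 - t) • MM).map e2

lemma seg_coe (t : ℝ≥0) : (seg t : Measure Wedge) =
    (md + t • mm).map e1 + ((1 / 3 - t) • mm).map e2 := rfl

lemma continuous_seg : Continuous seg := by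
  unfold seg
  apply Continuous.add
  · apply (FiniteMeasure.continuous_map continuous_e1).comp
    fun_prop
  · apply (FiniteMeasure.continuous_map continuous_e2).comp
    fun_prop

lemma seg_ac (t : ℝ≥0) : (seg t : Measure Wedge) ≪ (seg 0 : Measure Wedge) := by
  rw [seg_coe, seg_coe]
  simp only [zero_smul, add_zero, tsub_zero]
  have h1 : (md + t • mm) ≪ md := by
    apply Measure.AbsolutelyContinuous.add_left
    · exact Measure.AbsolutelyContinuous.refl _
    · exact (Measure.smul_absolutelyContinuous).trans mm_ac_md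
  have h2 : ((1 / 3 - t) • mm) ≪ ((1 / 3 : ℝ≥0) • mm) :=
    (Measure.smul_absolutelyContinuous).trans
      (Measure.absolutelyContinuous_smul (by norm_num))
  exact (h1.map emb_e1.measurable).add (h2.map emb_e2.measurable)

lemma integral_seg {t : ℝ≥0} (ht : t ≤ 1 / 3) (f : C(Wedge, ℂ)) (hf : f ∈ Alg) :
    ∫ s, f s ∂(seg t : Measure Wedge) = ∫ x, f (e1 x) ∂md + (1 / 3 : ℝ≥0) • f org := by
  rw [seg_coe]
  have i1 : Integrable f ((md + t • mm).map e1) := integrable_C _ f
  have i2 : Integrable f (((1 / 3 - t) • mm).map e2) := integrable_C _ f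
  rw [integral_add_measure i1 i2, emb_e1.integral_map, emb_e2.integral_map]
  have j1 : Integrable (fun x => f (e1 x)) md := integrable_C md (f.comp ⟨e1, continuous_e1⟩)
  have j2 : Integrable (fun x => f (e1 x)) (t • mm) :=
    integrable_C (t • mm) (f.comp ⟨e1, continuous_e1⟩)
  rw [integral_add_measure j1 j2, integral_smul_nnreal_measure, integral_smul_nnreal_measure,
    (mean f hf).1, (mean f hf).2, add_assoc]
  congr 1
  rw [← add_smul, add_tsub_cancel_of_le ht]

lemma integral_seg_eq {t : ℝ≥0} (ht : t ≤ 1 / 3) (f : C(Wedge, ℂ)) (hf : f ∈ Alg) :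
    ∫ s, f s ∂(seg t : Measure Wedge) = f pt := by
  rw [integral_seg ht f hf, ← mean_pt f hf, ← md_add]
  have j1 : Integrable (fun x => f (e1 x)) md := integrable_C md (f.comp ⟨e1, continuous_e1⟩)
  have j2 : Integrable (fun x => f (e1 x)) ((1 / 3 : ℝ≥0) • mm) :=
    integrable_C ((1 / 3 : ℝ≥0) • mm) (f.comp ⟨e1, continuous_e1⟩)
  rw [integral_add_measure j1 j2, integral_smul_nnreal_measure, (mean f hf).1]

lemma seg_mem_E {t : ℝ≥0} (ht : t ≤ 1 / 3) : seg t ∈ E Alg (seg 0) := by
  refine ⟨seg_ac t, fun f hf => ?_⟩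
  rw [integral_seg ht f hf, integral_seg zero_le f hf]

lemma eq_of_fourier_ne {α β : Measure X} [IsFiniteMeasure α] [IsFiniteMeasure β]
    (h : ∀ n : ℕ, 1 ≤ n → ∫ x, fourier n x ∂α = ∫ x, fourier n x ∂β)
    (h0 : α.real univ = β.real univ) : α = β := by
  have hneg : ∀ (γ : Measure X) (n : ℤ), ∫ x, fourier (-n) x ∂γ =
      (starRingEnd ℂ) (∫ x, fourier n x ∂γ) := by
    intro γ n
    rw [← integral_conj]
    congr 1
    ext x
    exact fourier_neg
  apply ext_of_fourier
  intro n
  rcases lt_trichotomy n 0 with hn | hn | hn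
  · obtain ⟨m, hm⟩ : ∃ m : ℕ, n = -(m : ℤ) := ⟨n.natAbs, by omega⟩
    subst hm
    rw [hneg, hneg, h m (by omega)]
  · subst hn
    simp only [fourier_zero]
    rw [integral_const, integral_const, h0]
  · obtain ⟨m, hm⟩ : ∃ m : ℕ, n = (m : ℤ) := ⟨n.natAbs, by omega⟩
    subst hm
    exact h m (by omega)

lemma exists_seg {ν : FiniteMeasure Wedge} (h : ν ∈ E Alg (seg 0)) :
    ∃ t : ℝ≥0, t ≤ 1 / 3 ∧ ν = seg t := by
  obtain ⟨hac, heq⟩ := h
  set ν1 : Measure X := (ν : Measure Wedge).comap e1 with hν1
  set ν2 : Measure X := (ν : Measure Wedge).comap e2 with hν2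
  have hsupp : (ν : Measure Wedge) (range e1 ∪ range e2)ᶜ = 0 := by
    apply hac
    rw [seg_coe]
    have hm : MeasurableSet (range e1 ∪ range e2)ᶜ :=
      (emb_e1.measurableSet_range.union emb_e2.measurableSet_range).compl
    rw [Measure.add_apply, emb_e1.map_apply, emb_e2.map_apply]
    have a1 : e1 ⁻¹' (range e1 ∪ range e2)ᶜ = ∅ := by
      ext x; simp
    have a2 : e2 ⁻¹' (range e1 ∪ range e2)ᶜ = ∅ := by
      ext x; simp
    rw [a1, a2]
    simp
  have hdec : (ν : Measure Wedge) = ν1.map e1 + ν2.map e2 := by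
    rw [hν1, hν2, emb_e1.map_comap, emb_e2.map_comap,
      ← Measure.restrict_union range_disj emb_e2.measurableSet_range]
    symm
    exact Measure.restrict_eq_self_of_ae_mem (by
      rw [ae_iff]
      exact hsupp)
  have hint : ∀ f : C(Wedge, ℂ), ∫ s, f s ∂(ν : Measure Wedge) =
      ∫ x, f (e1 x) ∂ν1 + ∫ x, f (e2 x) ∂ν2 := by
    intro f
    rw [hdec]
    have i1 : Integrable f (ν1.map e1) := integrable_C _ f
    have i2 : Integrable f (ν2.map e2) := integrable_C _ f
    rw [integral_add_measure i1 i2, emb_e1.integral_map, emb_e2.integral_map]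
  have hZ : ∀ n : ℕ, 1 ≤ n → ∫ x, fourier n x ∂ν1 = ∫ x, fourier n x ∂md := by
    intro n hn
    have hn0 : n ≠ 0 := by omega
    have h1 := heq (cZ ^ n) (Subalgebra.pow_mem _ cZ_mem n)
    rw [integral_seg zero_le _ (Subalgebra.pow_mem _ cZ_mem n), hint] at h1
    simp only [ContinuousMap.pow_apply, Z_e1, Z_e2, fourier_one_pow] at h1
    simp only [zero_pow hn0, integral_zero, add_zero] at h1
    rw [← h1]
    simp [org, hn0]
  have hW : ∀ n : ℕ, 1 ≤ n → ∫ x, fourier n x ∂ν2 = 0 := by
    intro n hn
    have hn0 : n ≠ 0 := by omega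
    have h1 := heq (cW ^ n) (Subalgebra.pow_mem _ cW_mem n)
    rw [integral_seg zero_le _ (Subalgebra.pow_mem _ cW_mem n), hint] at h1
    simp only [ContinuousMap.pow_apply, W_e1, W_e2, fourier_one_pow] at h1
    simp only [zero_pow hn0, integral_zero, zero_add] at h1
    rw [← h1]
    simp [org, hn0]
  have h1 : ν1.real univ + ν2.real univ = md.real univ + 1 / 3 := by
    have h1 := heq 1 (Subalgebra.one_mem _)
    rw [integral_seg zero_le _ (Subalgebra.one_mem _), hint] at h1
    simp only [ContinuousMap.one_apply, integral_const, Complex.real_smul, mul_one,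
      NNReal.smul_def] at h1
    have h2 : (((md.real univ + ((1 / 3 : ℝ≥0) : ℝ) : ℝ)) : ℂ) =
        ((ν1.real univ + ν2.real univ : ℝ) : ℂ) := by
      rw [Complex.ofReal_add, Complex.ofReal_add]
      exact h1
    have h3 := Complex.ofReal_injective h2
    rw [← h3]
    norm_num
  set a := ν1.real univ with ha
  set b := ν2.real univ with hb
  set p := md.real univ with hp
  have hb0 : 0 ≤ b := measureReal_nonneg
  have hmm : mm.real univ = 1 := by simp
  have hn0' : ∀ n : ℕ, 1 ≤ n → ∫ x, fourier n x ∂mm = 0 := by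
    intro n hn
    exact integral_fourier_of_ne (by omega)
  -- the second measure
  have hν2' : ν2 = b.toNNReal • mm := by
    apply eq_of_fourier_ne
    · intro n hn
      rw [hW n hn, integral_smul_nnreal_measure, hn0' n hn, smul_zero]
    · rw [measureReal_nnreal_smul_apply, hmm, mul_one, ← hb, Real.coe_toNNReal _ hb0]
  rcases le_or_gt p a with hpa | hpa
  · have hν1' : ν1 = md + (a - p).toNNReal • mm := by
      apply eq_of_fourier_ne
      · intro n hn
        rw [hZ n hn, integral_add_measure (integrable_C _ _) (integrable_C _ _),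
          integral_smul_nnreal_measure, hn0' n hn, smul_zero, add_zero]
      · rw [measureReal_add_apply, measureReal_nnreal_smul_apply, hmm, mul_one,
          Real.coe_toNNReal _ (by linarith), ← ha, ← hp]
        ring
    have hle : (a - p).toNNReal ≤ 1 / 3 := by
      rw [← NNReal.coe_le_coe, Real.coe_toNNReal _ (by linarith)]
      norm_num
      linarith
    refine ⟨(a - p).toNNReal, hle, ?_⟩
    · apply FiniteMeasure.toMeasure_injective
      rw [hdec, seg_coe, hν1', hν2']
      congr 3
      apply NNReal.eq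
      rw [NNReal.coe_sub hle, Real.coe_toNNReal _ hb0, Real.coe_toNNReal _ (by linarith)]
      norm_num
      linarith
  · exfalso
    have hcon : ν1 + (p - a).toNNReal • mm = md := by
      apply eq_of_fourier_ne
      · intro n hn
        rw [integral_add_measure (integrable_C _ _) (integrable_C _ _), hZ n hn,
          integral_smul_nnreal_measure, hn0' n hn, smul_zero, add_zero]
      · rw [measureReal_add_apply, measureReal_nnreal_smul_apply, hmm, mul_one,
          Real.coe_toNNReal _ (by linarith), ← ha, ← hp]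
        ring
    have hpos : (0 : ℝ≥0∞) < ((p - a).toNNReal : ℝ≥0∞) := by
      rw [ENNReal.coe_pos, Real.toNNReal_pos]
      linarith
    exact not_le_md hpos ν1 hcon

lemma E_eq : E Alg (seg 0) = seg '' Icc 0 (1 / 3) := by
  ext ν
  constructor
  · intro h
    obtain ⟨t, ht, rfl⟩ := exists_seg h
    exact ⟨t, ⟨zero_le, ht⟩, rfl⟩
  · rintro ⟨t, ht, rfl⟩
    exact seg_mem_E ht.2

lemma closure_E : closure (E Alg (seg 0)) = E Alg (seg 0) := by
  apply IsClosed.closure_eq
  rw [E_eq]
  exact (isCompact_Icc.image continuous_seg).isClosed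

end Pool.Agent.LogModulus
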