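import Mathlib
import Pool.Agent.Lib_helper1.LogModulus.Example

/-!
The final computations of the example.
-/

open MeasureTheory Set Topology AddCircle
open scoped ENNReal NNReal BoundedContinuousFunction

namespace Pool.Agent.LogModulus

/-- mass of the second circle is `1 - t` -/
lemma seg_injOn {s t : ℝ≥0} (hs : s ≤ 1 / 3) (ht : t ≤ 1 / 3) (h : seg s = seg t) : s = t := by
  have h1 : (seg s : Measure Wedge) (range e2) = (seg t : Measure Wedge) (range e2) := by rw [h]
  have key : ∀ r : ℝ≥0, (seg r : Measure Wedge) (range e2) = ((1 / 3 - r : ℝ≥0) : ℝ≥0∞) := by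
    intro r
    rw [seg_coe, Measure.add_apply, emb_e1.map_apply, emb_e2.map_apply]
    have a1 : e1 ⁻¹' (range e2) = ∅ := by
      ext x
      simp only [mem_preimage, mem_empty_iff_false, iff_false]
      intro hx
      exact Set.disjoint_left.1 range_disj ⟨x, rfl⟩ hx
    have a2 : e2 ⁻¹' (range e2) = univ := by
      ext x; simp
    rw [a1, a2, measure_empty, zero_add]
    simp
  rw [key, key, ENNReal.coe_inj] at h1
  have h2 : (1 / 3 : ℝ≥0) - (1 / 3 - s) = s := tsub_tsub_cancel_of_le hs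
  have h3 : (1 / 3 : ℝ≥0) - (1 / 3 - t) = t := tsub_tsub_cancel_of_le ht
  rw [← h2, ← h3, h1]

/-- a function that has modulus `3` on the first circle and `1` on the second one -/
noncomputable def F1 : C(Wedge, ℂ) := (3 : ℂ) • cZ + cW
/-- a function that has modulus `1` on the first circle and `3` on the second one -/
noncomputable def F2 : C(Wedge, ℂ) := cZ + (3 : ℂ) • cW

lemma F1_mem : F1 ∈ Alg := Subalgebra.add_mem _ (Subalgebra.smul_mem _ cZ_mem _) cW_mem
lemma F2_mem : F2 ∈ Alg := Subalgebra.add_mem _ cZ_mem (Subalgebra.smul_mem _ cW_mem _)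

lemma enorm_fourier_one (x : X) : ‖(fourier 1 x : ℂ)‖ₑ = 1 := by
  rw [← ofReal_norm, norm_fourier_one, ENNReal.ofReal_one]

lemma F1_e1 (x : X) : ‖F1 (e1 x)‖ₑ = 3 := by
  have : F1 (e1 x) = 3 * fourier 1 x := by simp [F1, e1]
  rw [this, enorm_mul, enorm_fourier_one, mul_one, ← ofReal_norm]
  norm_num

lemma F1_e2 (x : X) : ‖F1 (e2 x)‖ₑ = 1 := by
  have : F1 (e2 x) = fourier 1 x := by simp [F1, e2]
  rw [this, enorm_fourier_one]

lemma F2_e1 (x : X) : ‖F2 (e1 x)‖ₑ = 1 := by
  have : F2 (e1 x) = fourier 1 x := by simp [F2, e1]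
  rw [this, enorm_fourier_one]

lemma F2_e2 (x : X) : ‖F2 (e2 x)‖ₑ = 3 := by
  have : F2 (e2 x) = 3 * fourier 1 x := by simp [F2, e2]
  rw [this, enorm_mul, enorm_fourier_one, mul_one, ← ofReal_norm]
  norm_num

/-- `log 3` -/
noncomputable def l3 : ℝ≥0∞ := (ENNReal.log 3).toENNReal

lemma l3_eq : l3 = ENNReal.ofReal (Real.log 3) := by
  unfold l3
  have : ENNReal.log 3 = ((Real.log 3 : ℝ) : EReal) := by
    have h := ENNReal.log_ofReal 3
    rw [if_neg (by norm_num)] at h
    rw [← h]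
    norm_num
  rw [this, EReal.toENNReal_of_ne_top (EReal.coe_ne_top _), EReal.toReal_coe]

lemma l3_ne_top : l3 ≠ ⊤ := by rw [l3_eq]; exact ENNReal.ofReal_ne_top

lemma l3_ne_zero : l3 ≠ 0 := by
  rw [l3_eq, Ne, ENNReal.ofReal_eq_zero, not_le]
  exact Real.log_pos (by norm_num)

lemma neg_log3 : (-ENNReal.log 3).toENNReal = 0 := by
  apply EReal.toENNReal_of_nonpos
  have h : ENNReal.log 1 ≤ ENNReal.log 3 := ENNReal.log_monotone (by norm_num)
  rw [ENNReal.log_one] at h
  have h2 := EReal.neg_le_neg_iff.2 h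
  rwa [neg_zero] at h2

lemma logIntegral_F1 (t : ℝ≥0) :
    logIntegral (seg t) F1 = ((l3 * (md univ + t) : ℝ≥0∞) : EReal) := by
  unfold logIntegral
  rw [seg_coe, lintegral_add_measure, lintegral_add_measure, emb_e1.lintegral_map,
    emb_e1.lintegral_map, emb_e2.lintegral_map, emb_e2.lintegral_map]
  simp only [F1_e1, F1_e2, neg_log3, ENNReal.log_one, neg_zero, EReal.toENNReal_zero,
    lintegral_zero, add_zero, EReal.coe_ennreal_zero, sub_zero, lintegral_const]
  congr 2
  simp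

lemma logIntegral_F2 (t : ℝ≥0) :
    logIntegral (seg t) F2 = ((l3 * ((1 / 3 - t : ℝ≥0) : ℝ≥0∞) : ℝ≥0∞) : EReal) := by
  unfold logIntegral
  rw [seg_coe, lintegral_add_measure, lintegral_add_measure, emb_e1.lintegral_map,
    emb_e1.lintegral_map, emb_e2.lintegral_map, emb_e2.lintegral_map]
  simp only [F2_e1, F2_e2, neg_log3, ENNReal.log_one, neg_zero, EReal.toENNReal_zero,
    lintegral_zero, zero_add, add_zero, EReal.coe_ennreal_zero, sub_zero, lintegral_const]
  congr 2
  simp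

lemma not_greatest (σ : FiniteMeasure Wedge) : ¬ IsGreatestIn Alg (E Alg (seg 0)) σ := by
  rintro ⟨hσ, hmax⟩
  obtain ⟨t, ht, rfl⟩ := exists_seg hσ
  have h1 := hmax (seg (1 / 3)) (seg_mem_E le_rfl) F1 F1_mem
  have h0 := hmax (seg 0) (seg_mem_E zero_le) F2 F2_mem
  rw [logIntegral_F1, logIntegral_F1, EReal.coe_ennreal_le_coe_ennreal_iff,
    ENNReal.mul_le_mul_iff_right l3_ne_zero l3_ne_top] at h1
  rw [logIntegral_F2, logIntegral_F2, EReal.coe_ennreal_le_coe_ennreal_iff,
    ENNReal.mul_le_mul_iff_right l3_ne_zero l3_ne_top] at h0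
  have h1' : (1 / 3 : ℝ≥0) ≤ t := by
    have := (ENNReal.add_le_add_iff_left (measure_ne_top md univ)).1 h1
    exact_mod_cast this
  have h0' : (1 / 3 : ℝ≥0) ≤ 1 / 3 - t := by
    rw [tsub_zero] at h0
    exact_mod_cast h0
  have ht1 : t = 1 / 3 := le_antisymm ht h1'
  subst ht1
  rw [tsub_self] at h0'
  norm_num at h0'

lemma seg_comb {a b s t : ℝ≥0} (hab : a + b = 1) (hs : s ≤ 1 / 3) (ht : t ≤ 1 / 3) :
    a • seg s + b • seg t = seg (a * s + b * t) := by
  have hle : a * s + b * t ≤ 1 / 3 := by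
    calc a * s + b * t ≤ a * (1 / 3) + b * (1 / 3) := by gcongr
      _ = 1 / 3 := by rw [← add_mul, hab, one_mul]
  have h1 : 1 / 3 - (a * s + b * t) = a * (1 / 3 - s) + b * (1 / 3 - t) := by
    apply NNReal.eq
    rw [NNReal.coe_sub hle]
    push_cast
    rw [NNReal.coe_sub hs, NNReal.coe_sub ht]
    push_cast
    have : (a : ℝ) + b = 1 := by exact_mod_cast hab
    linear_combination -this / 3
  unfold seg
  rw [h1]
  simp only [FiniteMeasure.map_add emb_e1.measurable, FiniteMeasure.map_smul]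
  have h2 : (MD.map e1 : FiniteMeasure Wedge) = (a + b) • MD.map e1 := by rw [hab, one_smul]
  conv_rhs => rw [h2]
  simp only [smul_add, add_smul, mul_smul]
  abel

lemma isExtremal_seg : IsExtremal Alg (seg 0) := by
  unfold IsExtremal
  rw [closure_E]
  refine ⟨seg_mem_E zero_le, ?_⟩
  intro x hx y hy hxy
  obtain ⟨s, hs, rfl⟩ := exists_seg hx
  obtain ⟨t, ht, rfl⟩ := exists_seg hy
  obtain ⟨a, b, ha, hb, hab, h⟩ := hxy
  -- a • seg s + b • seg t = seg (a s + b t)
  have hcomb : a • seg s + b • seg t = seg (a * s + b * t) := seg_comb hab hs ht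
  have hle : a * s + b * t ≤ 1 / 3 := by
    calc a * s + b * t ≤ a * (1 / 3) + b * (1 / 3) := by gcongr
      _ = 1 / 3 := by rw [← add_mul, hab, one_mul]
  rw [hcomb] at h
  have h0 := seg_injOn hle zero_le h
  have hs0 : s = 0 := by
    have : a * s = 0 := by
      have := add_eq_zero.1 h0
      exact this.1
    exact (mul_eq_zero.1 this).resolve_left ha.ne'
  rw [hs0]

end Pool.Agent.LogModulus
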